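import Pool.Graph.R_pool_sql_team_39128cda.H.MP_a2bed5_pr.A

/-!
# Workloads with dependent interarrival times
-/

set_option autoImplicit false

open MeasureTheory Set
open scoped ENNReal

namespace Pool.Agent.H15.KW

open Pool.Agent.H.MP_a2bed5_pr

variable {n : ℕ}

/-- the weighted comparison -/
lemma weight' {p f g r : ℝ → ℝ≥0∞} (hp : Antitone p) (hp1 : ∀ y, p y ≠ ⊤) (hr : Monotone r)
    (hf : Measurable f) (hg : Measurable g) (h0 : ∀ y, p y = 0 → f y = 0)
    (h : ∀ U : Set ℝ, IsUpperSet U → MeasurableSet U →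
      ∫⁻ y in U, p y * f y ≤ ∫⁻ y in U, p y * g y) : ∫⁻ y, r y * f y ≤ ∫⁻ y, r y * g y := by
  have hpm := hp.measurable
  have hrm := hr.measurable
  have hq : Monotone (fun y => (p y)⁻¹ * r y) := fun a b hab =>
    mul_le_mul' (ENNReal.inv_le_inv.2 (hp hab)) (hr hab)
  have hqm : Measurable (fun y => (p y)⁻¹ * r y) := hq.measurable
  calc ∫⁻ y, r y * f y = ∫⁻ y, ((p y)⁻¹ * r y) * (p y * f y) := by
        congr 1; funext y
        by_cases hy : p y = 0
        · simp [h0 y hy]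
        · have e : ((p y)⁻¹ * r y) * (p y * f y) = ((p y)⁻¹ * p y) * (r y * f y) := by ring
          rw [e, ENNReal.inv_mul_cancel hy (hp1 y), one_mul]
    _ ≤ ∫⁻ y, ((p y)⁻¹ * r y) * (p y * g y) := by
        rw [layer (q := fun y => (p y)⁻¹ * r y) (f := fun y => p y * f y) hqm (hpm.mul hf),
          layer (q := fun y => (p y)⁻¹ * r y) (f := fun y => p y * g y) hqm (hpm.mul hg)]
        refine lintegral_mono fun t => h _ ?_ (measurableSet_lt measurable_const hqm)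
        intro a b hab ha
        exact lt_of_lt_of_le ha (hq hab)
    _ ≤ ∫⁻ y, r y * g y := by
        refine lintegral_mono fun y => ?_
        by_cases hy : p y = 0
        · simp [hy]
        · have e : ((p y)⁻¹ * r y) * (p y * g y) = ((p y)⁻¹ * p y) * (r y * g y) := by ring
          simp only
          rw [e, ENNReal.inv_mul_cancel hy (hp1 y), one_mul]

section
variable (π : Measure (Fin (n+1) → ℝ)) [IsProbabilityMeasure π] (μS : Measure ℝ)
  [IsProbabilityMeasure μS] (P : Measure ((Fin (n+1) → ℝ) × ℝ × ℝ)) [IsProbabilityMeasure P]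
  (F : (Fin (n+1) → ℝ) × ℝ × ℝ → Fin (n+1) → ℝ)

variable (hP : P.map (fun x => (x.1, x.2.1)) = π.prod μS)

include hP in
lemma gap3 (a b : Fin (n+1)) (U : Set ℝ) {R : Set (ℝ × ℝ)} (hR : MeasurableSet R) :
    Measurable (fun x : (Fin (n+1) → ℝ) × ℝ × ℝ =>
      volume (U ∩ Ico (x.1 a - x.1 0) (x.1 b - x.1 0) ∩ {y | (x.2.1, y) ∈ R})) ∧
    ∫⁻ x, volume (U ∩ Ico (x.1 a - x.1 0) (x.1 b - x.1 0) ∩ {y | (x.2.1, y) ∈ R})
      ∂P = ∫⁻ y in U, μS {s | (s, y) ∈ R} * π {w | (w, y) ∈ gap a b} := by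
  have hB : MeasurableSet {p : ((Fin (n+1) → ℝ) × ℝ × ℝ) × ℝ |
      (p.1.1, p.2) ∈ gap a b ∧ (p.1.2.1, p.2) ∈ R} :=
    ((gap_meas a b).preimage (by fun_prop)).inter (hR.preimage (by fun_prop))
  obtain ⟨h1, -, h3⟩ := fub P hB U
  have e : ∀ x : (Fin (n+1) → ℝ) × ℝ × ℝ,
      U ∩ Ico (x.1 a - x.1 0) (x.1 b - x.1 0) ∩ {y | (x.2.1, y) ∈ R} =
      {y | (x, y) ∈ {p : ((Fin (n+1) → ℝ) × ℝ × ℝ) × ℝ |
      (p.1.1, p.2) ∈ gap a b ∧ (p.1.2.1, p.2) ∈ R}} ∩ U := by
    intro x; ext y; simp only [gap, mem_inter_iff, mem_ofPred_eq]; tauto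
  simp_rw [e]
  refine ⟨h1, h3.trans ?_⟩
  congr 1; funext y
  have m1 : MeasurableSet {w : Fin (n+1) → ℝ | (w, y) ∈ gap a b} :=
    (gap_meas a b).preimage (by fun_prop)
  have m2 : MeasurableSet {s : ℝ | (s, y) ∈ R} := hR.preimage (by fun_prop)
  have : {x : (Fin (n+1) → ℝ) × ℝ × ℝ | (x, y) ∈ {p : ((Fin (n+1) → ℝ) × ℝ × ℝ) × ℝ |
      (p.1.1, p.2) ∈ gap a b ∧ (p.1.2.1, p.2) ∈ R}} =
      (fun x : (Fin (n+1) → ℝ) × ℝ × ℝ => (x.1, x.2.1)) ⁻¹'
        ({w | (w, y) ∈ gap a b} ×ˢ {s | (s, y) ∈ R}) := by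
    ext x; simp
  rw [this, ← Measure.map_apply (by fun_prop) (m1.prod m2), hP, Measure.prod_prod]
  simp [mul_comm]

variable (hS : μS (Iio 0) = 0) (hT : ∀ᵐ x ∂P, 0 ≤ x.2.2) (hS0 : μS (Ioi 0) ≠ 0)
  (hF : ∀ x, Monotone (F x) ∧ ∃ σ : Equiv.Perm (Fin (n+1)), F x = raw x.1 x.2.1 x.2.2 ∘ σ)
  (hst : P.map F = π)

omit [IsProbabilityMeasure μS] [IsProbabilityMeasure P] in
include hst in
lemma aem : AEMeasurable F P :=
  AEMeasurable.of_map_ne_zero (by rw [hst]; exact IsProbabilityMeasure.ne_zero _)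

omit [IsProbabilityMeasure μS] [IsProbabilityMeasure P] in
include hst hF in
lemma aemono : ∀ᵐ w ∂π, Monotone w ∧ ∀ j, 0 ≤ w j := by
  have hm : MeasurableSet {w : Fin (n+1) → ℝ | Monotone w ∧ ∀ j, 0 ≤ w j} := by
    have : {w : Fin (n+1) → ℝ | Monotone w ∧ ∀ j, 0 ≤ w j} =
        (⋂ a, ⋂ b, ⋂ _ : a ≤ b, {w | w a ≤ w b}) ∩ ⋂ j, {w | 0 ≤ w j} := by
      ext w; simp [Monotone]
    rw [this]
    exact (MeasurableSet.iInter fun a => MeasurableSet.iInter fun b => MeasurableSet.iInter fun _ =>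
      measurableSet_le (by fun_prop) (by fun_prop)).inter
      (MeasurableSet.iInter fun j => measurableSet_le (by fun_prop) (by fun_prop))
  have := (ae_map_iff (aem π P F hst) hm).2 (Filter.Eventually.of_forall fun x => by
    obtain ⟨h1, σ, h2⟩ := hF x
    exact ⟨h1, fun j => by rw [h2]; exact le_max_right _ _⟩)
  rwa [hst] at this

omit [IsProbabilityMeasure P] in
include hP in
lemma ae_pair {Q : (Fin (n+1) → ℝ) × ℝ → Prop} (h : ∀ᵐ z ∂(π.prod μS), Q z) :
    ∀ᵐ x ∂P, Q (x.1, x.2.1) := by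
  rw [← hP] at h
  exact ae_of_ae_map (by fun_prop) h

omit [IsProbabilityMeasure P] in
include hP hst hF hS hT in
lemma ae3 {Q : ℝ → Prop} (hQ : ∀ᵐ s ∂μS, Q s) :
    ∀ᵐ x ∂P, (Monotone x.1 ∧ ∀ j, 0 ≤ x.1 j) ∧ 0 ≤ x.2.1 ∧ Q x.2.1 ∧ 0 ≤ x.2.2 := by
  have h1 : ∀ᵐ s ∂μS, 0 ≤ s := by
    rw [ae_iff]; simpa [Iio] using hS
  have a1 := ae_pair π μS P hP (Measure.quasiMeasurePreserving_fst (μ := π) (ν := μS) |>.ae
    (aemono π P F hF hst))
  have a2 := ae_pair π μS P hP (Measure.quasiMeasurePreserving_snd (μ := π) (ν := μS) |>.ae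
    (h1.and hQ))
  filter_upwards [a1, a2, hT] with x b1 b2 b3
  exact ⟨b1, b2.1, b2.2, b3⟩

include hP hst hF hS hT in
lemma key (i j l : Fin (n+1)) (hij : (j:ℕ) = i + 1) (hjl : (l:ℕ) = j + 1)
    (hfin : ∫⁻ y, π {w | (w, y) ∈ gap i j} ≠ ⊤) (U : Set ℝ) (hU : IsUpperSet U) :
    ∫⁻ y in U, μS (Ioi y) * π {w | (w, y) ∈ gap i j} ≤
      ∫⁻ y in U, μS (Ioi y) * π {w | (w, y) ∈ gap j l} := by
  obtain ⟨m1, m2, m3⟩ := fub π (gap_meas i j) U
  have r1 : MeasurableSet {p : ℝ × ℝ | p.2 < p.1} := measurableSet_lt measurable_snd measurable_fst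
  have r2 : MeasurableSet {p : ℝ × ℝ | p.1 ≤ p.2} := measurableSet_le measurable_fst measurable_snd
  obtain ⟨k1, k2⟩ := gap3 π μS P hP j l U r1
  obtain ⟨k3, k4⟩ := gap3 π μS P hP i j U r2
  have e1 : ∫⁻ y in U, π {w | (w, y) ∈ gap i j} ≤
      (∫⁻ y in U, μS (Ioi y) * π {w | (w, y) ∈ gap j l}) +
      ∫⁻ y in U, μS (Iic y) * π {w | (w, y) ∈ gap i j} := by
    rw [← m3]
    conv_lhs => rw [← hst]
    rw [lintegral_map' m1.aemeasurable (aem π P F hst)]
    refine le_trans ?_ (add_le_add k2.le k4.le)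
    rw [← lintegral_add_left k1]
    refine lintegral_mono_ae ?_
    filter_upwards [ae3 π μS P F hP hS hT hF hst (Q := fun _ => True) (by simp)] with x hx
    obtain ⟨h1, σ, h2⟩ := hF x
    have := pathvol hx.1.1 hx.2.1 h1 σ h2 i j l hij hjl hU
    rw [inter_comm U] at this
    exact this
  have ma : Measurable fun y => μS (Ioi y) :=
    Antitone.measurable fun a b h => measure_mono (Ioi_subset_Ioi h)
  have e2 : ∫⁻ y in U, π {w | (w, y) ∈ gap i j} =
      (∫⁻ y in U, μS (Ioi y) * π {w | (w, y) ∈ gap i j}) +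
      ∫⁻ y in U, μS (Iic y) * π {w | (w, y) ∈ gap i j} := by
    rw [← lintegral_add_left (f := fun y => μS (Ioi y) * π {w | (w, y) ∈ gap i j}) (ma.mul m2)]
    congr 1; funext y
    rw [← add_mul, ← compl_Ioi, prob_add_prob_compl measurableSet_Ioi, one_mul]
  have e3 : ∫⁻ y in U, μS (Iic y) * π {w | (w, y) ∈ gap i j} ≠ ⊤ := by
    refine ne_top_of_le_ne_top hfin (le_trans (lintegral_mono fun y => ?_)
      (setLIntegral_le_lintegral U _))
    exact mul_le_of_le_one_left' prob_le_one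
  rw [e2] at e1
  exact (ENNReal.add_le_add_iff_right e3).1 e1

include hP hst hF hS hT hS0 in
lemma zero (y : ℝ) (hy : μS (Ioi y) = 0) : π {w | w 0 + y < w (Fin.last n)} = 0 := by
  set A : Set (Fin (n+1) → ℝ) := {w | w 0 + y < w (Fin.last n)} with hA
  have mA : MeasurableSet A := measurableSet_lt (by fun_prop) (by fun_prop)
  set φ : ℝ → ℝ≥0∞ := fun u => ENNReal.ofReal (Real.arctan u + 2) with hφ
  have mφ : Measurable φ := (Real.measurable_arctan.add_const 2).ennreal_ofReal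
  have pos : ∀ u, 0 < Real.arctan u + 2 := fun u => by
    have := Real.neg_pi_div_two_lt_arctan u
    have := Real.pi_le_four
    linarith
  have pφ : ∀ u, φ u ≠ 0 := fun u => (ENNReal.ofReal_pos.2 (pos u)).ne'
  have sφ : StrictMono φ := fun a b h =>
    (ENNReal.ofReal_lt_ofReal_iff (pos b)).2 (by have := Real.arctan_strictMono h; linarith)
  have bφ : ∀ u, φ u ≤ 4 := fun u => by
    have := Real.arctan_lt_pi_div_two u
    have := Real.pi_le_four
    have h : ENNReal.ofReal (Real.arctan u + 2) ≤ ENNReal.ofReal 4 :=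
      ENNReal.ofReal_le_ofReal (by linarith)
    exact h.trans (by simp)
  set V : (Fin (n+1) → ℝ) → ℝ≥0∞ := A.indicator fun w => φ (w (Fin.last n)) with hV
  have mV : Measurable V := (mφ.comp (measurable_pi_apply _)).indicator mA
  have hQ : ∀ᵐ s ∂μS, s ≤ y := by rw [ae_iff]; simpa [Ioi] using hy
  have ae := ae3 π μS P F hP hS hT hF hst hQ
  have hπ1 : P.map Prod.fst = π := by
    have h1 : P.map Prod.fst = (P.map (fun x => (x.1, x.2.1))).map Prod.fst := by
      rw [Measure.map_map (by fun_prop) (by fun_prop)]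
      rfl
    rw [h1, hP, Measure.map_fst_prod]
    simp
  have same : ∀ H : (Fin (n+1) → ℝ) → ℝ≥0∞, Measurable H →
      ∫⁻ x, H x.1 ∂P = ∫⁻ x, H (F x) ∂P := by
    intro H hH
    rw [← lintegral_map' hH.aemeasurable (aem π P F hst), hst, ← hπ1,
      lintegral_map hH measurable_fst]
  have finite : ∀ H : (Fin (n+1) → ℝ) × ℝ × ℝ → ℝ≥0∞, (∀ x, H x ≤ 4) → ∫⁻ x, H x ∂P ≠ ⊤ := by
    intro H hH
    have : ∫⁻ x, H x ∂P ≤ ∫⁻ _, 4 ∂P := lintegral_mono fun x => hH x
    refine ne_top_of_le_ne_top ?_ this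
    simp
  have l1 : ∀ᵐ x ∂P, V (F x) ≤ V x.1 := by
    filter_upwards [ae] with x hx
    obtain ⟨-, σ, h2⟩ := hF x
    by_cases h : F x ∈ A
    · obtain ⟨t1, t2⟩ := top hx.1.1 hx.2.1 hx.2.2.1 σ h2 h
      rw [hV, indicator_of_mem h, indicator_of_mem (show x.1 ∈ A from t1)]
      exact sφ.monotone (by linarith [hx.2.2.2])
    · rw [hV, indicator_of_notMem h]; exact zero_le
  have eq := ae_eq_of_ae_le_of_lintegral_le l1
    (finite (fun x => V (F x)) (fun x => indicator_le' (fun _ _ => bφ _) (fun _ _ => zero_le) _))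
    (mV.comp measurable_fst).aemeasurable (same V mV).le
  -- on `A` the set is kept and no time passes
  have keep : ∀ᵐ x ∂P, x.1 ∈ A → F x ∈ A ∧ x.2.2 = 0 := by
    filter_upwards [ae, eq] with x hx he hxA
    obtain ⟨-, σ, h2⟩ := hF x
    have he' : V (F x) = V x.1 := he
    have h : F x ∈ A := by
      by_contra h
      rw [hV, indicator_of_notMem h, indicator_of_mem hxA] at he'
      exact pφ _ he'.symm
    refine ⟨h, ?_⟩
    obtain ⟨t1, t2⟩ := top hx.1.1 hx.2.1 hx.2.2.1 σ h2 h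
    rw [hV, indicator_of_mem h, indicator_of_mem hxA] at he'
    have h3 := sφ.injective he'
    linarith [hx.2.2.2]
  set V2 : (Fin (n+1) → ℝ) → ℝ≥0∞ := A.indicator fun w => φ (∑ a, w a) with hV2
  have mV2 : Measurable V2 := (mφ.comp (by fun_prop)).indicator mA
  have sumF : ∀ᵐ x ∂P, x.1 ∈ A → ∑ a, F x a = ∑ a, x.1 a + x.2.1 := by
    filter_upwards [ae, keep] with x hx hk hxA
    obtain ⟨-, σ, h2⟩ := hF x
    have ht := (hk hxA).2
    have h3 : ∀ a, F x (σ.symm a) = x.1 a + if a = 0 then x.2.1 else 0 := by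
      intro a
      rw [h2]
      simp only [Function.comp_apply, raw, Equiv.apply_symm_apply, ht, sub_zero]
      apply max_eq_left
      have := hx.1.2 a
      split_ifs
      · linarith [hx.2.1]
      · linarith
    rw [← Equiv.sum_comp σ.symm]
    simp only [h3, Finset.sum_add_distrib]
    simp
  have l2 : ∀ᵐ x ∂P, V2 x.1 ≤ V2 (F x) := by
    filter_upwards [ae, keep, sumF] with x hx hk hs
    by_cases h : x.1 ∈ A
    · rw [hV2, indicator_of_mem h, indicator_of_mem (hk h).1, hs h]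
      exact sφ.monotone (by linarith [hx.2.1])
    · rw [hV2, indicator_of_notMem h]; exact zero_le
  have eq2 := ae_eq_of_ae_le_of_lintegral_le l2
    (finite (fun x => V2 x.1) (fun x => indicator_le' (fun _ _ => bφ _) (fun _ _ => zero_le) _))
    (mV2.comp_aemeasurable (aem π P F hst)) (same V2 mV2).ge
  have hs0 : ∀ᵐ x ∂P, ¬ (x.1 ∈ A ∧ x.2.1 ∈ Ioi (0 : ℝ)) := by
    filter_upwards [keep, sumF, eq2] with x hk hs he h
    have he' : V2 x.1 = V2 (F x) := he
    rw [hV2, indicator_of_mem h.1, indicator_of_mem (hk h.1).1, hs h.1] at he'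
    have h3 := sφ.injective he'
    have h4 : 0 < x.2.1 := h.2
    linarith
  have z : (π.prod μS) (A ×ˢ Ioi (0:ℝ)) = 0 := by
    rw [← hP, Measure.map_apply (by fun_prop) (mA.prod measurableSet_Ioi)]
    rw [ae_iff] at hs0
    refine measure_mono_null ?_ hs0
    rintro x ⟨h1, h2⟩
    simp only [mem_ofPred_eq, not_not]
    exact ⟨h1, h2⟩
  rw [Measure.prod_prod] at z
  simpa [hS0] using z

end

end Pool.Agent.H15.KW
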