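import Pool.Agent.H15.KW.A

/-!
# Convexity of the mean workloads and of convex functions of the differences
-/

set_option autoImplicit false

open MeasureTheory Set
open scoped ENNReal

namespace Pool.Agent.H15.KW

open Pool.Agent.H.MP_a2bed5_pr (raw gap gap_meas fub)

variable {n : ℕ}

/-- the primitive of `r` -/
noncomputable def RR (r : ℝ → ℝ≥0∞) (x : ℝ) : ℝ≥0∞ := ∫⁻ y in Ico 0 x, r y

lemma fubR (π : Measure (Fin (n+1) → ℝ)) [IsProbabilityMeasure π] {r : ℝ → ℝ≥0∞}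
    (hr : Measurable r) {B : Set ((Fin (n+1) → ℝ) × ℝ)} (hB : MeasurableSet B) :
    Measurable (fun w => ∫⁻ y in {y | (w, y) ∈ B}, r y) ∧
    ∫⁻ w, (∫⁻ y in {y | (w, y) ∈ B}, r y) ∂π = ∫⁻ y, r y * π {w | (w, y) ∈ B} := by
  have hm : Measurable (indicator B (fun p : (Fin (n+1) → ℝ) × ℝ => r p.2)) :=
    (hr.comp measurable_snd).indicator hB
  have e : ∀ w, ∫⁻ y in {y | (w, y) ∈ B}, r y =
      ∫⁻ y, indicator B (fun p : (Fin (n+1) → ℝ) × ℝ => r p.2) (w, y) := by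
    intro w
    have hw : MeasurableSet {y : ℝ | (w, y) ∈ B} := measurable_prodMk_left hB
    rw [← lintegral_indicator hw]
    rfl
  simp_rw [e]
  refine ⟨hm.lintegral_prod_right', ?_⟩
  rw [lintegral_lintegral_swap
    (f := fun (w : Fin (n+1) → ℝ) (y : ℝ) =>
      indicator B (fun p : (Fin (n+1) → ℝ) × ℝ => r p.2) (w, y)) hm.aemeasurable]
  congr 1; funext y
  have h2 : (fun w => indicator B (fun p : (Fin (n+1) → ℝ) × ℝ => r p.2) (w, y)) =
      indicator {w | (w, y) ∈ B} (fun _ => r y) := by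
    funext w; rfl
  have hy : MeasurableSet {w : Fin (n+1) → ℝ | (w, y) ∈ B} := measurable_prodMk_right hB
  rw [h2, lintegral_indicator_const hy]

section
variable (π : Measure (Fin (n+1) → ℝ)) [IsProbabilityMeasure π] (μS : Measure ℝ)
  [IsProbabilityMeasure μS] (P : Measure ((Fin (n+1) → ℝ) × ℝ × ℝ)) [IsProbabilityMeasure P]
  (F : (Fin (n+1) → ℝ) × ℝ × ℝ → Fin (n+1) → ℝ)
  (hP : P.map (fun x => (x.1, x.2.1)) = π.prod μS)
  (hS : μS (Iio 0) = 0) (hT : ∀ᵐ x ∂P, 0 ≤ x.2.2) (hS0 : μS (Ioi 0) ≠ 0)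
  (hF : ∀ x, Monotone (F x) ∧ ∃ σ : Equiv.Perm (Fin (n+1)), F x = raw x.1 x.2.1 x.2.2 ∘ σ)
  (hst : P.map F = π)

omit [IsProbabilityMeasure P] in
include hst hF in
lemma split (a b : Fin (n+1)) (hab : a ≤ b) :
    ∫⁻ w, ENNReal.ofReal (w b) ∂π =
      ∫⁻ w, ENNReal.ofReal (w a) ∂π + ∫⁻ y, π {w | (w, y) ∈ gap a b} := by
  obtain ⟨m1, -, m3⟩ := fub π (gap_meas a b) univ
  rw [Measure.restrict_univ] at m3
  rw [← m3, ← lintegral_add_left (by fun_prop)]
  refine lintegral_congr_ae ?_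
  filter_upwards [aemono π P F hF hst] with w hw
  have : {y | (w, y) ∈ gap a b} ∩ univ = Ico (w a - w 0) (w b - w 0) := by
    ext y; simp [gap]
  rw [this, Real.volume_Ico, ← ENNReal.ofReal_add (hw.2 a) (by have := hw.1 hab; linarith)]
  congr 1; ring

omit [IsProbabilityMeasure P] in
include hst hF in
lemma splitR {r : ℝ → ℝ≥0∞} (hr : Measurable r) (a b : Fin (n+1)) (hab : a ≤ b) :
    ∫⁻ w, RR r (w b - w 0) ∂π =
      ∫⁻ w, RR r (w a - w 0) ∂π + ∫⁻ y, r y * π {w | (w, y) ∈ gap a b} := by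
  obtain ⟨m1, m3⟩ := fubR π hr (gap_meas a b)
  rw [← m3, ← lintegral_add_right _ m1]
  refine lintegral_congr_ae ?_
  filter_upwards [aemono π P F hF hst] with w hw
  have e : {y | (w, y) ∈ gap a b} = Ico (w a - w 0) (w b - w 0) := by
    ext y; simp [gap]
  have h1 : 0 ≤ w a - w 0 := by have := hw.1 (Fin.zero_le a); linarith
  have h2 : w a - w 0 ≤ w b - w 0 := by have := hw.1 hab; linarith
  rw [e, RR, RR, ← Ico_union_Ico_eq_Ico h1 h2,
    lintegral_union measurableSet_Ico (Ico_disjoint_Ico_same)]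

omit [IsProbabilityMeasure P] in
include hst hF in
lemma gap_neg (a b : Fin (n+1)) (y : ℝ) (hy : y < 0) : π {w | (w, y) ∈ gap a b} = 0 := by
  refine measure_mono_null ?_ (ae_iff.1 (aemono π P F hF hst))
  intro w hw h
  have h1 : w a - w 0 ≤ y := hw.1
  have := h.1 (Fin.zero_le a)
  linarith

omit [IsProbabilityMeasure P] in
include hst hF in
lemma tail_top (a b : Fin (n+1)) (h : ∫⁻ y, π {w | (w, y) ∈ gap a b} = ⊤) (y₀ : ℝ) :
    ∫⁻ y in Ici y₀, π {w | (w, y) ∈ gap a b} = ⊤ := by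
  have h1 : ∫⁻ y in Iio y₀, π {w | (w, y) ∈ gap a b} ≠ ⊤ := by
    have h2 : ∫⁻ y in Iio y₀, π {w | (w, y) ∈ gap a b} ≤
        ∫⁻ y, indicator (Ico 0 y₀) (fun _ => (1 : ℝ≥0∞)) y := by
      rw [← lintegral_indicator measurableSet_Iio]
      refine lintegral_mono fun y => ?_
      by_cases hy : y ∈ Iio y₀
      · rw [indicator_of_mem hy]
        by_cases hy0 : y < 0
        · rw [gap_neg π P F hF hst a b y hy0]; exact zero_le
        · rw [indicator_of_mem (show y ∈ Ico 0 y₀ from ⟨not_lt.mp hy0, hy⟩)]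
          exact prob_le_one
      · rw [indicator_of_notMem hy]; exact zero_le
    refine ne_top_of_le_ne_top ?_ h2
    rw [lintegral_indicator_const measurableSet_Ico, Real.volume_Ico]
    simp
  have h3 := lintegral_add_compl (fun y => π {w | (w, y) ∈ gap a b}) (μ := volume)
    (measurableSet_Iio (a := y₀))
  rw [h, compl_Iio] at h3
  by_contra h4
  exact (ENNReal.add_ne_top.2 ⟨h1, h4⟩) h3

include hP hst hF hS hT hS0 in
lemma compareR {r : ℝ → ℝ≥0∞} (hr : Monotone r) (i j l : Fin (n+1)) (hij : (j:ℕ) = i + 1)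
    (hjl : (l:ℕ) = j + 1) (hfin : ∫⁻ y, π {w | (w, y) ∈ gap i j} ≠ ⊤) :
    ∫⁻ y, r y * π {w | (w, y) ∈ gap i j} ≤ ∫⁻ y, r y * π {w | (w, y) ∈ gap j l} := by
  refine weight' (p := fun y => μS (Ioi y)) (fun a b h => measure_mono (Ioi_subset_Ioi h))
    (fun y => measure_ne_top _ _) hr (fub π (gap_meas i j) univ).2.1
    (fub π (gap_meas j l) univ).2.1 (fun y hy => ?_)
    (fun U hU _ => key π μS P F hP hS hT hF hst i j l hij hjl hfin U hU)
  have z := zero π μS P F hP hS hT hS0 hF hst y hy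
  refine measure_mono_null ?_ (measure_union_null z (ae_iff.1 (aemono π P F hF hst)))
  intro w hw
  by_cases h : Monotone w ∧ ∀ j, 0 ≤ w j
  · left
    have h1 : y < w j - w 0 := hw.2
    have := h.1 (Fin.le_last j)
    simp only [mem_ofPred_eq]
    linarith
  · exact Or.inr h

lemma final (a c Sij Sjl Ej El : ℝ≥0∞) (h1 : Ej = a + Sij) (h2 : El = Ej + Sjl)
    (h : Sij ≤ Sjl ∨ Sij = ⊤) (_ : c = a) : 2 * Ej ≤ a + El := by
  rcases h with h | h
  · rw [two_mul, h2]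
    nth_rewrite 1 [h1]
    calc a + Sij + Ej = a + (Ej + Sij) := by ring
      _ ≤ a + (Ej + Sjl) := by gcongr
  · rw [h2, h1, h]; simp

include hP hst hF hS hT hS0 in
theorem main (i j l : Fin (n+1)) (hij : (j:ℕ) = i + 1) (hjl : (l:ℕ) = j + 1) :
    2 * ∫⁻ w, ENNReal.ofReal (w j) ∂π ≤
      ∫⁻ w, ENNReal.ofReal (w i) ∂π + ∫⁻ w, ENNReal.ofReal (w l) ∂π := by
  refine final _ _ _ _ _ _ (split π P F hF hst i j (Fin.le_def.2 (by omega)))
    (split π P F hF hst j l (Fin.le_def.2 (by omega))) ?_ rfl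
  by_cases hfin : ∫⁻ y, π {w | (w, y) ∈ gap i j} = ⊤
  · exact Or.inr hfin
  · left
    have := compareR π μS P F hP hS hT hS0 hF hst (r := fun _ => 1) monotone_const i j l hij hjl
      hfin
    simpa using this

include hP hst hF hS hT hS0 in
theorem mainR {r : ℝ → ℝ≥0∞} (hr : Monotone r) (i j l : Fin (n+1)) (hij : (j:ℕ) = i + 1)
    (hjl : (l:ℕ) = j + 1) :
    2 * ∫⁻ w, RR r (w j - w 0) ∂π ≤
      ∫⁻ w, RR r (w i - w 0) ∂π + ∫⁻ w, RR r (w l - w 0) ∂π := by
  refine final _ _ _ _ _ _ (splitR π P F hF hst hr.measurable i j (Fin.le_def.2 (by omega)))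
    (splitR π P F hF hst hr.measurable j l (Fin.le_def.2 (by omega))) ?_ rfl
  by_cases hfin : ∫⁻ y, π {w | (w, y) ∈ gap i j} = ⊤
  · by_cases h0 : ∃ y₀, r y₀ ≠ 0
    · obtain ⟨y₀, hy₀⟩ := h0
      right
      have h1 := tail_top π P F hF hst i j hfin y₀
      have h2 : ∫⁻ y in Ici y₀, r y₀ * π {w | (w, y) ∈ gap i j} ≤
          ∫⁻ y, r y * π {w | (w, y) ∈ gap i j} := by
        refine le_trans ?_ (setLIntegral_le_lintegral (Ici y₀) _)
        refine setLIntegral_mono' measurableSet_Ici fun y hy => ?_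
        exact mul_le_mul_left (hr hy) _
      rw [lintegral_const_mul _ (fub π (gap_meas i j) univ).2.1, h1, ENNReal.mul_top hy₀] at h2
      exact top_le_iff.mp h2
    · left
      push Not at h0
      simp [h0]
  · exact Or.inl (compareR π μS P F hP hS hT hS0 hF hst hr i j l hij hjl hfin)

end

end Pool.Agent.H15.KW
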