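import Pool.Agent.H15.KW.B

/-!
# Weights that depend on the level above the least load and on the absolute level
-/

set_option autoImplicit false

open MeasureTheory Set
open scoped ENNReal

namespace Pool.Agent.H15.KW

open Pool.Agent.H.MP_a2bed5_pr (raw gap gap_meas fub path low volIoo)

variable {n : ℕ}

/-- layer cake -/
lemma layerG {α : Type*} [MeasurableSpace α] (ν : Measure α) [SFinite ν] {q : α → ℝ≥0∞}
    (hq : Measurable q) :
    ∫⁻ z, q z ∂ν = ∫⁻ t in Ioi (0:ℝ), ν {z | ENNReal.ofReal t < q z} := by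
  have hm : MeasurableSet {p : α × ℝ | 0 < p.2 ∧ ENNReal.ofReal p.2 < q p.1} :=
    (measurableSet_lt measurable_const measurable_snd).inter
      (measurableSet_lt (measurable_snd.ennreal_ofReal) (hq.comp measurable_fst))
  have h1 : ∀ y, q y =
      volume (Prod.mk y ⁻¹' {p : α × ℝ | 0 < p.2 ∧ ENNReal.ofReal p.2 < q p.1}) :=
    fun y => (volIoo (q y)).symm
  rw [lintegral_congr h1, ← Measure.prod_apply hm, Measure.prod_apply_symm hm,
    ← lintegral_indicator measurableSet_Ioi]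
  congr 1; funext t
  by_cases ht : 0 < t
  · rw [indicator_of_mem (show t ∈ Ioi (0:ℝ) from ht)]
    congr 1
    ext z
    simp [ht]
  · rw [indicator_of_notMem (show t ∉ Ioi (0:ℝ) from ht)]
    have : (fun z : α => (z, t)) ⁻¹' {p : α × ℝ | 0 < p.2 ∧ ENNReal.ofReal p.2 < q p.1} = ∅ := by
      ext z
      simp [ht]
    rw [this, measure_empty]

lemma pathvolG {w w' : Fin (n+1) → ℝ} {s t : ℝ} (hw : Monotone w) (hs : 0 ≤ s) (ht : 0 ≤ t)
    (hw' : Monotone w') (σ : Equiv.Perm (Fin (n+1))) (he : w' = raw w s t ∘ σ)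
    (i j l : Fin (n+1)) (hij : (j:ℕ) = i + 1) (hjl : (l:ℕ) = j + 1) {U : Set (ℝ × ℝ)}
    (hU : IsUpperSet U) :
    volume {y | y ∈ Ico (w' i - w' 0) (w' j - w' 0) ∧ (y, w' 0 + y) ∈ U} ≤
      volume {y | (y ∈ Ico (w j - w 0) (w l - w 0) ∧ (y, w 0 + y) ∈ U) ∧ y < s} +
      volume {y | (y ∈ Ico (w i - w 0) (w j - w 0) ∧ (y, w 0 + y) ∈ U) ∧ s ≤ y} := by
  refine le_trans ?_ (measure_union_le _ _)
  rw [← measure_preimage_add_right volume (w' 0 + t - w 0)
    ({y | (y ∈ Ico (w j - w 0) (w l - w 0) ∧ (y, w 0 + y) ∈ U) ∧ y < s} ∪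
      {y | (y ∈ Ico (w i - w 0) (w j - w 0) ∧ (y, w 0 + y) ∈ U) ∧ s ≤ y})]
  apply measure_mono
  rintro x ⟨hx, hxU⟩
  have h1 := (low hw hs σ he 0).2
  have hU' : (x + (w' 0 + t - w 0), w 0 + (x + (w' 0 + t - w 0))) ∈ U :=
    hU (Prod.mk_le_mk.2 ⟨by linarith, by linarith⟩) hxU
  rcases path hw hs hw' σ he i j l hij hjl x hx with h | h
  · exact Or.inl ⟨⟨h.1, hU'⟩, h.2⟩
  · exact Or.inr ⟨⟨h.1, hU'⟩, h.2⟩

/-- the part of the gap with (height, level) in `U` -/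
def gapU (a b : Fin (n+1)) (U : Set (ℝ × ℝ)) : Set ((Fin (n+1) → ℝ) × ℝ) :=
  {p | p ∈ gap a b ∧ (p.2, p.1 0 + p.2) ∈ U}

lemma gapU_meas (a b : Fin (n+1)) {U : Set (ℝ × ℝ)} (hU : MeasurableSet U) :
    MeasurableSet (gapU (n := n) a b U) :=
  (gap_meas a b).inter (hU.preimage (by fun_prop))

section
variable (π : Measure (Fin (n+1) → ℝ)) [IsProbabilityMeasure π] (μS : Measure ℝ)
  [IsProbabilityMeasure μS] (P : Measure ((Fin (n+1) → ℝ) × ℝ × ℝ)) [IsProbabilityMeasure P]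
  (F : (Fin (n+1) → ℝ) × ℝ × ℝ → Fin (n+1) → ℝ)
  (hP : P.map (fun x => (x.1, x.2.1)) = π.prod μS)

include hP in
lemma gapG {B : Set ((Fin (n+1) → ℝ) × ℝ)} (hBm : MeasurableSet B) {R : Set (ℝ × ℝ)}
    (hR : MeasurableSet R) :
    Measurable (fun x : (Fin (n+1) → ℝ) × ℝ × ℝ => volume {y | (x.1, y) ∈ B ∧ (x.2.1, y) ∈ R}) ∧
    ∫⁻ x, volume {y | (x.1, y) ∈ B ∧ (x.2.1, y) ∈ R} ∂P =
      ∫⁻ y, μS {s | (s, y) ∈ R} * π {w | (w, y) ∈ B} := by
  have hB : MeasurableSet {p : ((Fin (n+1) → ℝ) × ℝ × ℝ) × ℝ |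
      (p.1.1, p.2) ∈ B ∧ (p.1.2.1, p.2) ∈ R} :=
    (hBm.preimage (by fun_prop)).inter (hR.preimage (by fun_prop))
  obtain ⟨h1, -, h3⟩ := fub P hB univ
  simp only [inter_univ, Measure.restrict_univ, mem_ofPred_eq] at h1 h3
  refine ⟨h1, h3.trans ?_⟩
  congr 1; funext y
  have m1 : MeasurableSet {w : Fin (n+1) → ℝ | (w, y) ∈ B} := hBm.preimage (by fun_prop)
  have m2 : MeasurableSet {s : ℝ | (s, y) ∈ R} := hR.preimage (by fun_prop)
  have : {x : (Fin (n+1) → ℝ) × ℝ × ℝ | (x.1, y) ∈ B ∧ (x.2.1, y) ∈ R} =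
      (fun x : (Fin (n+1) → ℝ) × ℝ × ℝ => (x.1, x.2.1)) ⁻¹'
        ({w | (w, y) ∈ B} ×ˢ {s | (s, y) ∈ R}) := by
    ext x; simp
  rw [this, ← Measure.map_apply (by fun_prop) (m1.prod m2), hP, Measure.prod_prod]
  simp [mul_comm]

variable (hS : μS (Iio 0) = 0) (hT : ∀ᵐ x ∂P, 0 ≤ x.2.2) (hS0 : μS (Ioi 0) ≠ 0)
  (hF : ∀ x, Monotone (F x) ∧ ∃ σ : Equiv.Perm (Fin (n+1)), F x = raw x.1 x.2.1 x.2.2 ∘ σ)
  (hst : P.map F = π)

include hP hst hF hS hT in
lemma keyG (i j l : Fin (n+1)) (hij : (j:ℕ) = i + 1) (hjl : (l:ℕ) = j + 1)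
    (hfin : ∫⁻ y, π {w | (w, y) ∈ gap i j} ≠ ⊤) {U : Set (ℝ × ℝ)} (hU : IsUpperSet U)
    (hUm : MeasurableSet U) :
    ∫⁻ y, μS (Ioi y) * π {w | (w, y) ∈ gapU i j U} ≤
      ∫⁻ y, μS (Ioi y) * π {w | (w, y) ∈ gapU j l U} := by
  obtain ⟨m1, m2, m3⟩ := fub π (gapU_meas i j hUm) univ
  simp only [inter_univ, Measure.restrict_univ] at m1 m3
  have r1 : MeasurableSet {p : ℝ × ℝ | p.2 < p.1} := measurableSet_lt measurable_snd measurable_fst
  have r2 : MeasurableSet {p : ℝ × ℝ | p.1 ≤ p.2} := measurableSet_le measurable_fst measurable_snd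
  obtain ⟨k1, k2⟩ := gapG π μS P hP (gapU_meas j l hUm) r1
  obtain ⟨k3, k4⟩ := gapG π μS P hP (gapU_meas i j hUm) r2
  have e1 : ∫⁻ y, π {w | (w, y) ∈ gapU i j U} ≤
      (∫⁻ y, μS (Ioi y) * π {w | (w, y) ∈ gapU j l U}) +
      ∫⁻ y, μS (Iic y) * π {w | (w, y) ∈ gapU i j U} := by
    rw [← m3]
    conv_lhs => rw [← hst]
    rw [lintegral_map' m1.aemeasurable (aem π P F hst)]
    refine le_trans ?_ (add_le_add k2.le k4.le)
    rw [← lintegral_add_left k1]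
    refine lintegral_mono_ae ?_
    filter_upwards [ae3 π μS P F hP hS hT hF hst (Q := fun _ => True) (by simp)] with x hx
    obtain ⟨h1, σ, h2⟩ := hF x
    exact pathvolG hx.1.1 hx.2.1 hx.2.2.2 h1 σ h2 i j l hij hjl hU
  have ma : Measurable fun y => μS (Ioi y) :=
    Antitone.measurable fun a b h => measure_mono (Ioi_subset_Ioi h)
  have e2 : ∫⁻ y, π {w | (w, y) ∈ gapU i j U} =
      (∫⁻ y, μS (Ioi y) * π {w | (w, y) ∈ gapU i j U}) +
      ∫⁻ y, μS (Iic y) * π {w | (w, y) ∈ gapU i j U} := by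
    rw [← lintegral_add_left (f := fun y => μS (Ioi y) * π {w | (w, y) ∈ gapU i j U}) (ma.mul m2)]
    congr 1; funext y
    rw [← add_mul, ← compl_Ioi, prob_add_prob_compl measurableSet_Ioi, one_mul]
  have e3 : ∫⁻ y, μS (Iic y) * π {w | (w, y) ∈ gapU i j U} ≠ ⊤ := by
    refine ne_top_of_le_ne_top hfin (lintegral_mono fun y => ?_)
    exact (mul_le_of_le_one_left' prob_le_one).trans (measure_mono fun w hw => hw.1)
  rw [e2] at e1
  exact (ENNReal.add_le_add_iff_right e3).1 e1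

omit [IsProbabilityMeasure μS] in
lemma stepG (a b : Fin (n+1)) {p : ℝ → ℝ≥0∞} (hp : Measurable p)
    {Q : ℝ → (Fin (n+1) → ℝ) → ℝ≥0∞} (hQ : Measurable (fun z : ℝ × (Fin (n+1) → ℝ) => Q z.1 z.2)) :
    ∫⁻ z in {z : ℝ × (Fin (n+1) → ℝ) | (z.2, z.1) ∈ gap a b}, Q z.1 z.2
      ∂((volume.withDensity p).prod π) =
    ∫⁻ y, p y * ∫⁻ w in {w | (w, y) ∈ gap a b}, Q y w ∂π := by
  have hA : MeasurableSet {z : ℝ × (Fin (n+1) → ℝ) | (z.2, z.1) ∈ gap a b} :=
    (gap_meas a b).preimage (by fun_prop)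
  have hi := hQ.indicator hA
  rw [← lintegral_indicator hA, lintegral_prod _ hi.aemeasurable,
    lintegral_withDensity_eq_lintegral_mul volume hp hi.lintegral_prod_right']
  congr 1; funext y
  simp only [Pi.mul_apply]
  congr 1
  have hy : MeasurableSet {w : Fin (n+1) → ℝ | (w, y) ∈ gap a b} :=
    (gap_meas a b).preimage (by fun_prop)
  rw [← lintegral_indicator hy]
  rfl

include hP hst hF hS hT hS0 in
lemma compareG {ρ : ℝ → ℝ → ℝ≥0∞} (hρ : Monotone (fun p : ℝ × ℝ => ρ p.1 p.2))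
    (hρm : Measurable (fun p : ℝ × ℝ => ρ p.1 p.2)) (i j l : Fin (n+1)) (hij : (j:ℕ) = i + 1)
    (hjl : (l:ℕ) = j + 1) (hfin : ∫⁻ y, π {w | (w, y) ∈ gap i j} ≠ ⊤) :
    ∫⁻ y, ∫⁻ w in {w | (w, y) ∈ gap i j}, ρ y (w 0 + y) ∂π ≤
      ∫⁻ y, ∫⁻ w in {w | (w, y) ∈ gap j l}, ρ y (w 0 + y) ∂π := by
  set p : ℝ → ℝ≥0∞ := fun y => μS (Ioi y) with hp
  have hanti : Antitone p := fun a b h => measure_mono (Ioi_subset_Ioi h)
  have hpm : Measurable p := hanti.measurable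
  set q : ℝ × ℝ → ℝ≥0∞ := fun v => (p v.1)⁻¹ * ρ v.1 v.2 with hq
  have hqm : Measurable q := (hpm.comp measurable_fst).inv.mul hρm
  have hqmono : Monotone q := fun a b hab =>
    mul_le_mul' (ENNReal.inv_le_inv.2 (hanti hab.1)) (hρ hab)
  set Q : ℝ → (Fin (n+1) → ℝ) → ℝ≥0∞ := fun y w => (p y)⁻¹ * ρ y (w 0 + y) with hQ
  have hQm : Measurable (fun z : ℝ × (Fin (n+1) → ℝ) => Q z.1 z.2) :=
    hqm.comp (show Measurable fun z : ℝ × (Fin (n+1) → ℝ) => (z.1, z.2 0 + z.1) by fun_prop)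
  have mρ : ∀ y, Measurable fun w : Fin (n+1) → ℝ => ρ y (w 0 + y) := fun y =>
    hρm.comp (show Measurable fun w : Fin (n+1) → ℝ => (y, w 0 + y) by fun_prop)
  have A1 : ∫⁻ y, ∫⁻ w in {w | (w, y) ∈ gap i j}, ρ y (w 0 + y) ∂π =
      ∫⁻ y, p y * ∫⁻ w in {w | (w, y) ∈ gap i j}, Q y w ∂π := by
    congr 1; funext y
    simp only [hQ]
    rw [lintegral_const_mul _ (mρ y), ← mul_assoc]
    by_cases hy : p y = 0
    · have z := zero π μS P F hP hS hT hS0 hF hst y hy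
      have z2 : π {w : Fin (n+1) → ℝ | (w, y) ∈ gap i j} = 0 := by
        refine measure_mono_null ?_ (measure_union_null z (ae_iff.1 (aemono π P F hF hst)))
        intro w hw
        by_cases h : Monotone w ∧ ∀ j, 0 ≤ w j
        · left
          have h1 : y < w j - w 0 := hw.2
          have := h.1 (Fin.le_last j)
          simp only [mem_ofPred_eq]
          linarith
        · exact Or.inr h
      rw [Measure.restrict_eq_zero.2 z2]
      simp
    · rw [ENNReal.mul_inv_cancel hy (measure_ne_top _ _), one_mul]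
  have A2 : ∫⁻ y, p y * ∫⁻ w in {w | (w, y) ∈ gap j l}, Q y w ∂π ≤
      ∫⁻ y, ∫⁻ w in {w | (w, y) ∈ gap j l}, ρ y (w 0 + y) ∂π := by
    refine lintegral_mono fun y => ?_
    simp only [hQ]
    rw [lintegral_const_mul _ (mρ y), ← mul_assoc]
    exact mul_le_of_le_one_left' (ENNReal.mul_inv_le_one _)
  rw [A1]
  refine le_trans ?_ A2
  rw [← stepG π i j hpm hQm, ← stepG π j l hpm hQm,
    layerG _ hQm, layerG _ hQm]
  refine lintegral_mono fun t => ?_
  set U : Set (ℝ × ℝ) := {v | ENNReal.ofReal t < q v} with hUdef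
  have hUm : MeasurableSet U := measurableSet_lt measurable_const hqm
  have hU : IsUpperSet U := fun a b hab ha => lt_of_lt_of_le ha (hqmono hab)
  have hV : MeasurableSet {z : ℝ × (Fin (n+1) → ℝ) | ENNReal.ofReal t < Q z.1 z.2} :=
    measurableSet_lt measurable_const hQm
  have key : ∀ a b : Fin (n+1), ((volume.withDensity p).prod π).restrict
      {z : ℝ × (Fin (n+1) → ℝ) | (z.2, z.1) ∈ gap a b}
      {z : ℝ × (Fin (n+1) → ℝ) | ENNReal.ofReal t < Q z.1 z.2} =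
      ∫⁻ y, p y * π {w | (w, y) ∈ gapU a b U} := by
    intro a b
    have hA : MeasurableSet {z : ℝ × (Fin (n+1) → ℝ) | (z.2, z.1) ∈ gap a b} :=
      (gap_meas a b).preimage (by fun_prop)
    rw [Measure.restrict_apply hV, Measure.prod_apply (hV.inter hA),
      lintegral_withDensity_eq_lintegral_mul volume hpm (measurable_measure_prodMk_left
        (hV.inter hA))]
    congr 1; funext y
    simp only [Pi.mul_apply]
    congr 2
    ext w
    simp only [gapU, hUdef, hq, hQ, mem_preimage, mem_inter_iff, mem_ofPred_eq]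
    tauto
  rw [key i j, key j l]
  exact keyG π μS P F hP hS hT hF hst i j l hij hjl hfin hU hUm

/-- the functional with the weight `ρ` (height above the least load, level) -/
noncomputable def Phi (ρ : ℝ → ℝ → ℝ≥0∞) (m x : ℝ) : ℝ≥0∞ := ∫⁻ y in Ico 0 (x - m), ρ y (m + y)

omit [IsProbabilityMeasure P] in
include hst hF in
lemma splitG {ρ : ℝ → ℝ → ℝ≥0∞} (hρm : Measurable (fun p : ℝ × ℝ => ρ p.1 p.2))
    (a b : Fin (n+1)) (hab : a ≤ b) :
    ∫⁻ w, Phi ρ (w 0) (w b) ∂π =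
      ∫⁻ w, Phi ρ (w 0) (w a) ∂π + ∫⁻ y, ∫⁻ w in {w | (w, y) ∈ gap a b}, ρ y (w 0 + y) ∂π := by
  have hm : Measurable (indicator (gap a b)
      (fun p : (Fin (n+1) → ℝ) × ℝ => ρ p.2 (p.1 0 + p.2))) :=
    (hρm.comp (show Measurable fun p : (Fin (n+1) → ℝ) × ℝ => (p.2, p.1 0 + p.2) by
      fun_prop)).indicator (gap_meas a b)
  have e : ∀ w : Fin (n+1) → ℝ, ∫⁻ y in {y | (w, y) ∈ gap a b}, ρ y (w 0 + y) =
      ∫⁻ y, indicator (gap a b) (fun p : (Fin (n+1) → ℝ) × ℝ => ρ p.2 (p.1 0 + p.2)) (w, y) := by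
    intro w
    have hw : MeasurableSet {y : ℝ | (w, y) ∈ gap a b} := (gap_meas a b).preimage (by fun_prop)
    rw [← lintegral_indicator hw]
    rfl
  have m1 : Measurable fun w : Fin (n+1) → ℝ =>
      ∫⁻ y in {y | (w, y) ∈ gap a b}, ρ y (w 0 + y) := by
    simp_rw [e]
    exact hm.lintegral_prod_right'
  have m3 : ∫⁻ y, ∫⁻ w in {w | (w, y) ∈ gap a b}, ρ y (w 0 + y) ∂π =
      ∫⁻ w, (∫⁻ y in {y | (w, y) ∈ gap a b}, ρ y (w 0 + y)) ∂π := by
    simp_rw [e]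
    rw [lintegral_lintegral_swap
      (f := fun (w : Fin (n+1) → ℝ) (y : ℝ) =>
        indicator (gap a b) (fun p : (Fin (n+1) → ℝ) × ℝ => ρ p.2 (p.1 0 + p.2)) (w, y))
      hm.aemeasurable]
    congr 1; funext y
    have hy : MeasurableSet {w : Fin (n+1) → ℝ | (w, y) ∈ gap a b} :=
      (gap_meas a b).preimage (by fun_prop)
    rw [← lintegral_indicator hy]
    rfl
  rw [m3, ← lintegral_add_right _ m1]
  refine lintegral_congr_ae ?_
  filter_upwards [aemono π P F hF hst] with w hw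
  have e : {y | (w, y) ∈ gap a b} = Ico (w a - w 0) (w b - w 0) := by
    ext y; simp [gap]
  have h1 : 0 ≤ w a - w 0 := by have := hw.1 (Fin.zero_le a); linarith
  have h2 : w a - w 0 ≤ w b - w 0 := by have := hw.1 hab; linarith
  rw [e, Phi, Phi, ← Ico_union_Ico_eq_Ico h1 h2,
    lintegral_union measurableSet_Ico (Ico_disjoint_Ico_same)]

include hP hst hF hS hT hS0 in
theorem mainG {ρ : ℝ → ℝ → ℝ≥0∞} (hρ : Monotone (fun p : ℝ × ℝ => ρ p.1 p.2))
    (hρm : Measurable (fun p : ℝ × ℝ => ρ p.1 p.2)) (i j l : Fin (n+1)) (hij : (j:ℕ) = i + 1)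
    (hjl : (l:ℕ) = j + 1) :
    2 * ∫⁻ w, Phi ρ (w 0) (w j) ∂π ≤
      ∫⁻ w, Phi ρ (w 0) (w i) ∂π + ∫⁻ w, Phi ρ (w 0) (w l) ∂π := by
  refine final _ _ _ _ _ _ (splitG π P F hF hst hρm i j (Fin.le_def.2 (by omega)))
    (splitG π P F hF hst hρm j l (Fin.le_def.2 (by omega))) ?_ rfl
  by_cases hfin : ∫⁻ y, π {w | (w, y) ∈ gap i j} = ⊤
  · by_cases h0 : ∃ x₀ v₀, ρ x₀ v₀ ≠ 0
    · obtain ⟨x₀, v₀, hy₀⟩ := h0
      right
      set y₀ := max x₀ v₀ with hy₀def
      have h1 := tail_top π P F hF hst i j hfin y₀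
      have h2 : ∫⁻ y in Ici y₀, ρ x₀ v₀ * π {w | (w, y) ∈ gap i j} ≤
          ∫⁻ y, ∫⁻ w in {w | (w, y) ∈ gap i j}, ρ y (w 0 + y) ∂π := by
        refine le_trans ?_ (setLIntegral_le_lintegral (Ici y₀) _)
        refine setLIntegral_mono_ae' measurableSet_Ici (Filter.Eventually.of_forall fun y hy => ?_)
        have hy' : y₀ ≤ y := hy
        rw [← setLIntegral_const]
        refine lintegral_mono_ae (ae_restrict_of_ae ?_)
        filter_upwards [aemono π P F hF hst] with w hw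
        have a1 := le_max_left x₀ v₀
        have a2 := le_max_right x₀ v₀
        exact hρ (show (x₀, v₀) ≤ (y, w 0 + y) from
          Prod.mk_le_mk.2 ⟨by linarith, by have := hw.2 0; linarith⟩)
      rw [lintegral_const_mul _ (fub π (gap_meas i j) univ).2.1, h1, ENNReal.mul_top hy₀] at h2
      exact top_le_iff.mp h2
    · left
      push Not at h0
      simp [h0]
  · exact Or.inl (compareG π μS P F hP hS hT hS0 hF hst hρ hρm i j l hij hjl hfin)

omit [IsProbabilityMeasure P] in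
include hst hF in
/-- the primitive of `r` at the absolute level -/
lemma absolute {r : ℝ → ℝ≥0∞} (a : Fin (n+1)) (hr : Measurable r) :
    ∫⁻ w, RR r (w a) ∂π =
      ∫⁻ w, RR r (w 0) ∂π + ∫⁻ w, Phi (fun _ v => r v) (w 0) (w a) ∂π := by
  have m0 : Measurable fun w : Fin (n+1) → ℝ => RR r (w 0) := by
    have hB : MeasurableSet {p : (Fin (n+1) → ℝ) × ℝ | 0 ≤ p.2 ∧ p.2 < p.1 0} :=
      (measurableSet_le measurable_const measurable_snd).inter
        (measurableSet_lt measurable_snd (by fun_prop))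
    exact (fubR π hr hB).1
  rw [← lintegral_add_left m0]
  refine lintegral_congr_ae ?_
  filter_upwards [aemono π P F hF hst] with w hw
  have h1 : w 0 ≤ w a := hw.1 (Fin.zero_le a)
  have h2 : ∫⁻ y in Ico 0 (w a - w 0), r (w 0 + y) = ∫⁻ v in Ico (w 0) (w a), r v := by
    have h := (measurePreserving_add_left volume (w 0)).setLIntegral_comp_preimage
      (measurableSet_Ico (a := w 0) (b := w a)) hr
    rw [← h]
    congr 2
    ext y
    simp only [mem_preimage, mem_Ico]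
    constructor
    · rintro ⟨_, _⟩; constructor <;> linarith
    · rintro ⟨_, _⟩; constructor <;> linarith
  simp only [RR, Phi]
  rw [h2, ← Ico_union_Ico_eq_Ico (hw.2 0) h1,
    lintegral_union measurableSet_Ico (Ico_disjoint_Ico_same)]

include hP hst hF hS hT hS0 in
theorem mainA {r : ℝ → ℝ≥0∞} (hr : Monotone r) (i j l : Fin (n+1)) (hij : (j:ℕ) = i + 1)
    (hjl : (l:ℕ) = j + 1) :
    2 * ∫⁻ w, RR r (w j) ∂π ≤ ∫⁻ w, RR r (w i) ∂π + ∫⁻ w, RR r (w l) ∂π := by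
  have h := mainG π μS P F hP hS hT hS0 hF hst (ρ := fun _ v => r v)
    (fun a b hab => hr hab.2) (hr.measurable.comp measurable_snd) i j l hij hjl
  rw [absolute π P F hF hst i hr.measurable, absolute π P F hF hst j hr.measurable,
    absolute π P F hF hst l hr.measurable, mul_add, two_mul]
  calc _ ≤ (∫⁻ w, RR r (w 0) ∂π + ∫⁻ w, RR r (w 0) ∂π) +
        (∫⁻ w, Phi (fun _ v => r v) (w 0) (w i) ∂π +
          ∫⁻ w, Phi (fun _ v => r v) (w 0) (w l) ∂π) := by gcongr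
    _ = _ := by ring

end

end Pool.Agent.H15.KW
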